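import Mathlib
import Pool.Agent.V11131.TreeEnum
import Pool.Agent.V11131.TreeData

set_option autoImplicit false

namespace Pool.Agent.Results.MP_635878_co.Maximiser

open Finset Pool.Agent.V11131.TreeEnum Pool.Agent.V11131.TreeData

/-- `S` is 1-nearly independent: the subgraph induced by `S` has exactly one edge. -/
def Near {V : Type} (G : SimpleGraph V) (S : Finset V) : Prop :=
  (G.induce (S : Set V)).edgeSet.ncard = 1

open Classical in
/-- The number of 1-nearly independent sets. -/
noncomputable def sigma1 {V : Type} [Fintype V] (G : SimpleGraph V) : ℕ :=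
  (univ.filter fun S : Finset V => Near G S).card

open Classical in
/-- The sum of the cardinalities of the 1-nearly independent sets. -/
noncomputable def total1 {V : Type} [Fintype V] (G : SimpleGraph V) : ℕ :=
  ∑ S ∈ univ.filter (fun S : Finset V => Near G S), S.card

/-- The average cardinality of a 1-nearly independent set. -/
noncomputable def av1 {V : Type} [Fintype V] (G : SimpleGraph V) : ℚ :=
  (total1 G : ℚ) / (sigma1 G : ℚ)

/-- The tree `R_n` on `0, ..., n-1` (for `n ≥ 4`): the centre `0` is adjacent to all vertices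
other than `0` and `n - 1`, and `1` is adjacent to `n - 1`. -/
def R (n : ℕ) : SimpleGraph (Fin n) where
  Adj i j := (i.val = 0 ∧ j.val ≠ 0 ∧ j.val ≠ n - 1) ∨ (j.val = 0 ∧ i.val ≠ 0 ∧ i.val ≠ n - 1) ∨
    (i.val = 1 ∧ j.val = n - 1 ∧ i ≠ j) ∨ (j.val = 1 ∧ i.val = n - 1 ∧ i ≠ j)
  symm := ⟨fun i j h => by
    rcases h with h | h | h | h
    · exact Or.inr (Or.inl h)
    · exact Or.inl h
    · exact Or.inr (Or.inr (Or.inr ⟨h.1, h.2.1, h.2.2.symm⟩))
    · exact Or.inr (Or.inr (Or.inl ⟨h.1, h.2.1, h.2.2.symm⟩))⟩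
  loopless := ⟨fun i h => by
    rcases h with h | h | h | h
    · exact h.2.1 h.1
    · exact h.2.1 h.1
    · exact h.2.2 rfl
    · exact h.2.2 rfl⟩

instance (n : ℕ) : DecidableRel (R n).Adj := fun i j =>
  inferInstanceAs (Decidable ((i.val = 0 ∧ j.val ≠ 0 ∧ j.val ≠ n - 1) ∨
    (j.val = 0 ∧ i.val ≠ 0 ∧ i.val ≠ n - 1) ∨
    (i.val = 1 ∧ j.val = n - 1 ∧ i ≠ j) ∨ (j.val = 1 ∧ i.val = n - 1 ∧ i ≠ j)))

section General

variable {V : Type}

theorem near_iff (G : SimpleGraph V) (S : Finset V) :
    Near G S ↔ ∃ u v, u ∈ S ∧ v ∈ S ∧ G.Adj u v ∧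
      ∀ x ∈ S, ∀ y ∈ S, G.Adj x y → s(x, y) = s(u, v) := by
  unfold Near
  rw [Set.ncard_eq_one]
  constructor
  · rintro ⟨e, he⟩
    induction e with
    | h a b =>
      have hab : s(a, b) ∈ (G.induce (S : Set V)).edgeSet := by rw [he]; rfl
      refine ⟨a.1, b.1, a.2, b.2, hab, ?_⟩
      intro x hx y hy hxy
      have h1 : s((⟨x, hx⟩ : (S : Set V)), (⟨y, hy⟩ : (S : Set V))) ∈
          (G.induce (S : Set V)).edgeSet := hxy
      rw [he, Set.mem_singleton_iff] at h1
      have h2 := congrArg (Sym2.map Subtype.val) h1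
      simpa using h2
  · rintro ⟨u, v, hu, hv, huv, h⟩
    refine ⟨s(⟨u, hu⟩, ⟨v, hv⟩), ?_⟩
    ext e
    induction e with
    | h a b =>
      rw [Set.mem_singleton_iff]
      constructor
      · intro hab
        have h1 := h a.1 a.2 b.1 b.2 hab
        rcases Sym2.eq_iff.1 h1 with ⟨h2, h3⟩ | ⟨h2, h3⟩
        · rw [Sym2.eq_iff]
          left
          exact ⟨Subtype.ext h2, Subtype.ext h3⟩
        · rw [Sym2.eq_iff]
          right
          exact ⟨Subtype.ext h2, Subtype.ext h3⟩
      · intro hab
        rw [hab]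
        exact huv

variable [Fintype V]

open Classical in
/-- The nearly independent sets whose edge is `e`. -/
noncomputable def NE (G : SimpleGraph V) (e : Sym2 V) : Finset (Finset V) :=
  univ.filter fun S => (∀ x ∈ e, x ∈ S) ∧ ∀ x ∈ S, ∀ y ∈ S, G.Adj x y → s(x, y) = e

open Classical in
theorem mem_NE {G : SimpleGraph V} {u v : V} {S : Finset V} :
    S ∈ NE G s(u, v) ↔ u ∈ S ∧ v ∈ S ∧ ∀ x ∈ S, ∀ y ∈ S, G.Adj x y → s(x, y) = s(u, v) := by
  simp only [NE, Finset.mem_filter, Finset.mem_univ, true_and, Sym2.mem_iff]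
  constructor
  · rintro ⟨h1, h2⟩
    exact ⟨h1 u (Or.inl rfl), h1 v (Or.inr rfl), h2⟩
  · rintro ⟨h1, h2, h3⟩
    refine ⟨?_, h3⟩
    rintro x (rfl | rfl)
    · exact h1
    · exact h2

open Classical in
theorem near_eq_biUnion (G : SimpleGraph V) :
    (univ.filter fun S : Finset V => Near G S) = G.edgeFinset.biUnion (NE G) := by
  ext S
  rw [Finset.mem_filter, Finset.mem_biUnion]
  simp only [Finset.mem_univ, true_and]
  rw [near_iff]
  constructor
  · rintro ⟨u, v, hu, hv, huv, h⟩
    exact ⟨s(u, v), by rw [SimpleGraph.mem_edgeFinset]; exact huv, mem_NE.2 ⟨hu, hv, h⟩⟩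
  · rintro ⟨e, he, hS⟩
    induction e with
    | h u v =>
      rw [SimpleGraph.mem_edgeFinset] at he
      obtain ⟨hu, hv, h⟩ := mem_NE.1 hS
      exact ⟨u, v, hu, hv, he, h⟩

open Classical in
theorem NE_disjoint (G : SimpleGraph V) :
    ((G.edgeFinset : Finset (Sym2 V)) : Set (Sym2 V)).PairwiseDisjoint (NE G) := by
  intro e he e' he' hne
  rw [Function.onFun, Finset.disjoint_left]
  intro S hS hS'
  apply hne
  induction e with
  | h u v =>
  induction e' with
  | h u' v' =>
    obtain ⟨hu, hv, h⟩ := mem_NE.1 hS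
    obtain ⟨hu', hv', h'⟩ := mem_NE.1 hS'
    rw [Finset.mem_coe, SimpleGraph.mem_edgeFinset] at he
    exact h' u hu v hv he

open Classical in
theorem sum_near (G : SimpleGraph V) (f : Finset V → ℤ) :
    ∑ S ∈ univ.filter (fun S : Finset V => Near G S), f S =
      ∑ e ∈ G.edgeFinset, ∑ S ∈ NE G e, f S := by
  rw [near_eq_biUnion, Finset.sum_biUnion (NE_disjoint G)]

open Classical in
theorem card_erase_le (G : SimpleGraph V) (u v x : V) (hxu : x ≠ u) (hxv : x ≠ v)
    (P : Finset V → Prop) [DecidablePred P] (hP : ∀ S, P S → P (S.erase x)) :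
    ((NE G s(u, v)).filter fun S => x ∈ S ∧ P S).card ≤
      ((NE G s(u, v)).filter fun S => x ∉ S ∧ P S).card := by
  apply Finset.card_le_card_of_injOn (fun S => S.erase x)
  · intro S hS
    rw [Finset.mem_coe, Finset.mem_filter] at hS ⊢
    obtain ⟨hS1, hxS, hPS⟩ := hS
    obtain ⟨hu, hv, h⟩ := mem_NE.1 hS1
    refine ⟨mem_NE.2 ⟨Finset.mem_erase.2 ⟨hxu.symm, hu⟩, Finset.mem_erase.2 ⟨hxv.symm, hv⟩, ?_⟩,
      Finset.notMem_erase _ _, hP S hPS⟩
    intro a ha b hb hab
    exact h a (Finset.mem_of_mem_erase ha) b (Finset.mem_of_mem_erase hb) hab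
  · intro S hS S' hS' hSS
    rw [Finset.mem_coe, Finset.mem_filter] at hS hS'
    have h1 : insert x (S.erase x) = insert x (S'.erase x) := congrArg (insert x) hSS
    rwa [Finset.insert_erase hS.2.1, Finset.insert_erase hS'.2.1] at h1

open Classical in
/-- The vertices outside the closed neighbourhoods of `u` and `v`. -/
noncomputable def far (G : SimpleGraph V) (u v : V) : Finset V :=
  univ.filter fun x => x ≠ u ∧ x ≠ v ∧ ¬ G.Adj u x ∧ ¬ G.Adj v x

open Classical in
/-- The number of sets with edge `uv` containing `x`. -/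
noncomputable def cx (G : SimpleGraph V) (u v x : V) : ℕ :=
  ((NE G s(u, v)).filter fun S => x ∈ S).card

open Classical in
theorem cx_le_half (G : SimpleGraph V) (u v x : V) (hxu : x ≠ u) (hxv : x ≠ v) :
    2 * cx G u v x ≤ (NE G s(u, v)).card := by
  have h1 := card_erase_le G u v x hxu hxv (fun _ => True) (fun _ _ => trivial)
  simp only [and_true] at h1
  have h2 := Finset.card_filter_add_card_filter_not (s := NE G s(u, v)) (fun S => x ∈ S)
  unfold cx
  omega

open Classical in
theorem cx_pair (G : SimpleGraph V) (u v x y : V) (hxu : x ≠ u) (hxv : x ≠ v)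
    (hyu : y ≠ u) (hyv : y ≠ v) (hxy : G.Adj x y) :
    3 * (cx G u v x + cx G u v y) ≤ 2 * (NE G s(u, v)).card := by
  have hboth : ∀ S ∈ NE G s(u, v), ¬ (x ∈ S ∧ y ∈ S) := by
    rintro S hS ⟨hx, hy⟩
    obtain ⟨hu, hv, h⟩ := mem_NE.1 hS
    rcases Sym2.eq_iff.1 (h x hx y hy hxy) with h1 | h1
    · exact hxu h1.1
    · exact hxv h1.1
  have hx := card_erase_le G u v x hxu hxv (fun S => y ∉ S)
    (fun S hS h => hS (Finset.mem_of_mem_erase h))
  have hy := card_erase_le G u v y hyu hyv (fun S => x ∉ S)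
    (fun S hS h => hS (Finset.mem_of_mem_erase h))
  have e1 : ((NE G s(u, v)).filter fun S => x ∈ S ∧ y ∉ S) =
      (NE G s(u, v)).filter fun S => x ∈ S := by
    apply Finset.filter_congr
    intro S hS
    exact ⟨fun h => h.1, fun h => ⟨h, fun h' => hboth S hS ⟨h, h'⟩⟩⟩
  have e2 : ((NE G s(u, v)).filter fun S => y ∈ S ∧ x ∉ S) =
      (NE G s(u, v)).filter fun S => y ∈ S := by
    apply Finset.filter_congr
    intro S hS
    exact ⟨fun h => h.1, fun h => ⟨h, fun h' => hboth S hS ⟨h', h⟩⟩⟩
  have e3 : ((NE G s(u, v)).filter fun S => y ∉ S ∧ x ∉ S) =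
      (NE G s(u, v)).filter fun S => x ∉ S ∧ y ∉ S := by
    apply Finset.filter_congr
    intro S _
    exact and_comm
  rw [e1] at hx
  rw [e2, e3] at hy
  have h2 := Finset.card_filter_add_card_filter_not (s := NE G s(u, v)) (fun S => x ∈ S)
  have h3 := Finset.card_filter_add_card_filter_not
    (s := (NE G s(u, v)).filter fun S => x ∉ S) (fun S => y ∈ S)
  rw [Finset.filter_filter, Finset.filter_filter] at h3
  have e4 : ((NE G s(u, v)).filter fun S => x ∉ S ∧ y ∈ S) =
      (NE G s(u, v)).filter fun S => y ∈ S := by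
    apply Finset.filter_congr
    intro S hS
    exact ⟨fun h => h.2, fun h => ⟨fun h' => hboth S hS ⟨h', h⟩, h⟩⟩
  rw [e4] at h3
  unfold cx
  omega

open Classical in
theorem sum_card_NE (G : SimpleGraph V) (u v : V) (huv : G.Adj u v) :
    ∑ S ∈ NE G s(u, v), S.card = 2 * (NE G s(u, v)).card + ∑ x ∈ far G u v, cx G u v x := by
  have h1 : ∀ S : Finset V, S.card = ∑ x : V, if x ∈ S then 1 else 0 := by
    intro S
    rw [← Finset.card_filter]
    congr 1
    ext x
    simp
  rw [Finset.sum_congr rfl fun S _ => h1 S, Finset.sum_comm]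
  have h2 : ∀ x : V, ∑ S ∈ NE G s(u, v), (if x ∈ S then 1 else 0) = cx G u v x := by
    intro x
    rw [← Finset.card_filter]
    rfl
  rw [Finset.sum_congr rfl fun x _ => h2 x]
  have hu : cx G u v u = (NE G s(u, v)).card := by
    unfold cx
    rw [Finset.filter_true_of_mem]
    intro S hS
    exact (mem_NE.1 hS).1
  have hv : cx G u v v = (NE G s(u, v)).card := by
    unfold cx
    rw [Finset.filter_true_of_mem]
    intro S hS
    exact (mem_NE.1 hS).2.1
  have h0 : ∀ x, x ≠ u → x ≠ v → x ∉ far G u v → cx G u v x = 0 := by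
    intro x hxu hxv hx
    unfold cx
    rw [Finset.card_eq_zero, Finset.filter_eq_empty_iff]
    intro S hS hxS
    obtain ⟨hu, hv, h⟩ := mem_NE.1 hS
    apply hx
    unfold far
    rw [Finset.mem_filter]
    refine ⟨Finset.mem_univ _, hxu, hxv, ?_, ?_⟩
    · intro hadj
      rcases Sym2.eq_iff.1 (h u hu x hxS hadj) with h1 | h1
      · exact hxv h1.2
      · exact hxu h1.2
    · intro hadj
      rcases Sym2.eq_iff.1 (h v hv x hxS hadj) with h1 | h1
      · exact hxv h1.2
      · exact hxu h1.2
  have hsub : ({u, v} : Finset V) ∪ far G u v ⊆ univ := Finset.subset_univ _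
  have hdis : Disjoint ({u, v} : Finset V) (far G u v) := by
    rw [Finset.disjoint_left]
    intro x hx hx'
    rw [Finset.mem_insert, Finset.mem_singleton] at hx
    unfold far at hx'
    rw [Finset.mem_filter] at hx'
    rcases hx with hx | hx
    · exact hx'.2.1 hx
    · exact hx'.2.2.1 hx
  rw [← Finset.sum_subset hsub, Finset.sum_union hdis, Finset.sum_pair huv.ne, hu, hv]
  · ring
  · intro x _ hx
    rw [Finset.mem_union, not_or, Finset.mem_insert, Finset.mem_singleton, not_or] at hx
    exact h0 x hx.1.1 hx.1.2 hx.2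

open Classical in
/-- The bound for one edge. -/
theorem edge_bound (G : SimpleGraph V) (u v : V) (huv : G.Adj u v) (n : ℕ)
    (hm : (far G u v).card + 4 ≤ n ∨ ((far G u v).card + 3 ≤ n ∧
      ∃ x ∈ far G u v, ∃ y ∈ far G u v, G.Adj x y)) :
    6 * ∑ S ∈ NE G s(u, v), S.card ≤ (3 * n + 1) * (NE G s(u, v)).card := by
  rw [sum_card_NE G u v huv]
  have hhalf : ∀ x ∈ far G u v, 2 * cx G u v x ≤ (NE G s(u, v)).card := by
    intro x hx
    unfold far at hx
    rw [Finset.mem_filter] at hx
    exact cx_le_half G u v x hx.2.1 hx.2.2.1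
  rcases hm with hm | ⟨hm, x, hx, y, hy, hxy⟩
  · have h1 : ∑ x ∈ far G u v, 2 * cx G u v x ≤ (far G u v).card * (NE G s(u, v)).card := by
      rw [← smul_eq_mul, ← Finset.sum_const]
      exact Finset.sum_le_sum hhalf
    rw [← Finset.mul_sum] at h1
    have h2 : (far G u v).card * (NE G s(u, v)).card ≤ (n - 4) * (NE G s(u, v)).card :=
      Nat.mul_le_mul_right _ (by omega)
    obtain ⟨k, hk⟩ := Nat.exists_eq_add_of_le (show 4 ≤ n by omega)
    subst hk
    have e : 4 + k - 4 = k := by omega
    rw [e] at h2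
    nlinarith
  · have hxy' : x ≠ y := hxy.ne
    have hyx : y ∈ (far G u v).erase x := Finset.mem_erase.2 ⟨hxy'.symm, hy⟩
    rw [← Finset.add_sum_erase _ _ hx, ← Finset.add_sum_erase _ _ hyx]
    have h1 : ∑ z ∈ ((far G u v).erase x).erase y, 2 * cx G u v z ≤
        (((far G u v).erase x).erase y).card * (NE G s(u, v)).card := by
      rw [← smul_eq_mul, ← Finset.sum_const]
      exact Finset.sum_le_sum fun z hz =>
        hhalf z (Finset.mem_of_mem_erase (Finset.mem_of_mem_erase hz))
    rw [← Finset.mul_sum, Finset.card_erase_of_mem hyx, Finset.card_erase_of_mem hx] at h1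
    have hx' := hx
    have hy' := hy
    unfold far at hx' hy'
    rw [Finset.mem_filter] at hx' hy'
    have h3 := cx_pair G u v x y hx'.2.1 hx'.2.2.1 hy'.2.1 hy'.2.2.1 hxy
    have hc2 : 2 ≤ (far G u v).card := by
      have := Finset.card_le_card (show ({x, y} : Finset V) ⊆ far G u v by
        intro z hz
        rw [Finset.mem_insert, Finset.mem_singleton] at hz
        rcases hz with rfl | rfl
        · exact hx
        · exact hy)
      rwa [Finset.card_pair hxy'] at this
    have h2 : ((far G u v).card - 1 - 1) * (NE G s(u, v)).card ≤ (n - 5) * (NE G s(u, v)).card :=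
      Nat.mul_le_mul_right _ (by omega)
    obtain ⟨k, hk⟩ := Nat.exists_eq_add_of_le (show 5 ≤ n by omega)
    subst hk
    have e : 5 + k - 5 = k := by omega
    rw [e] at h2
    nlinarith

open Classical in
theorem bound_of_edges (G : SimpleGraph V) (n : ℕ)
    (hm : ∀ u v, G.Adj u v → ((far G u v).card + 4 ≤ n ∨ ((far G u v).card + 3 ≤ n ∧
      ∃ x ∈ far G u v, ∃ y ∈ far G u v, G.Adj x y))) :
    6 * total1 G ≤ (3 * n + 1) * sigma1 G := by
  have h1 : (6 * (total1 G : ℤ) - (3 * n + 1) * (sigma1 G : ℤ)) =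
      ∑ S ∈ univ.filter (fun S : Finset V => Near G S), (6 * (S.card : ℤ) - (3 * n + 1)) := by
    unfold total1 sigma1
    rw [Finset.sum_sub_distrib, ← Finset.mul_sum, Finset.sum_const, nsmul_eq_mul]
    push_cast
    ring
  have h2 : (6 * (total1 G : ℤ) - (3 * n + 1) * (sigma1 G : ℤ)) ≤ 0 := by
    rw [h1, sum_near]
    apply Finset.sum_nonpos
    intro e he
    induction e with
    | h u v =>
      rw [SimpleGraph.mem_edgeFinset] at he
      have h3 := edge_bound G u v he n (hm u v he)
      rw [Finset.sum_sub_distrib, ← Finset.mul_sum, Finset.sum_const, nsmul_eq_mul]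
      have h4 : (6 * ∑ S ∈ NE G s(u, v), (S.card : ℤ)) ≤
          (3 * n + 1) * ((NE G s(u, v)).card : ℤ) := by exact_mod_cast h3
      linarith
  have h5 : (6 * (total1 G : ℤ)) ≤ (3 * n + 1) * (sigma1 G : ℤ) := by linarith
  exact_mod_cast h5

end General

section Iso

variable {V W : Type} [Fintype V] [Fintype W] {G : SimpleGraph V} {H : SimpleGraph W}

theorem near_map_of (φ : G ≃g H) (S : Finset V) (h : Near G S) :
    Near H (S.map φ.toEquiv.toEmbedding) := by
  rw [near_iff] at h ⊢
  obtain ⟨u, v, hu, hv, huv, hS⟩ := h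
  refine ⟨φ u, φ v, Finset.mem_map.2 ⟨u, hu, rfl⟩, Finset.mem_map.2 ⟨v, hv, rfl⟩,
    φ.map_rel_iff.2 huv, ?_⟩
  intro x hx y hy hxy
  obtain ⟨a, ha, rfl⟩ := Finset.mem_map.1 hx
  obtain ⟨b, hb, rfl⟩ := Finset.mem_map.1 hy
  have hab : G.Adj a b := φ.map_rel_iff.1 hxy
  have h1 := hS a ha b hb hab
  exact congrArg (Sym2.map φ) h1

theorem near_map (φ : G ≃g H) (S : Finset V) :
    Near H (S.map φ.toEquiv.toEmbedding) ↔ Near G S := by
  constructor
  · intro h
    have h1 := near_map_of φ.symm _ h
    have h2 : (S.map φ.toEquiv.toEmbedding).map φ.symm.toEquiv.toEmbedding = S := by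
      rw [Finset.map_map]
      convert Finset.map_refl
      ext x
      simp
    rwa [h2] at h1
  · exact near_map_of φ S

open Classical in
theorem sigma1_iso (φ : G ≃g H) : sigma1 G = sigma1 H := by
  unfold sigma1
  apply Finset.card_bij (fun S _ => S.map φ.toEquiv.toEmbedding)
  · intro S hS
    rw [Finset.mem_filter] at hS ⊢
    exact ⟨Finset.mem_univ _, (near_map φ S).2 hS.2⟩
  · intro S _ S' _ h
    exact Finset.map_injective _ h
  · intro S hS
    rw [Finset.mem_filter] at hS
    refine ⟨S.map φ.symm.toEquiv.toEmbedding, ?_, ?_⟩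
    · rw [Finset.mem_filter]
      exact ⟨Finset.mem_univ _, (near_map φ.symm S).2 hS.2⟩
    · rw [Finset.map_map]
      convert Finset.map_refl
      ext x
      simp

open Classical in
theorem total1_iso (φ : G ≃g H) : total1 G = total1 H := by
  unfold total1
  apply Finset.sum_bij (fun S _ => S.map φ.toEquiv.toEmbedding)
  · intro S hS
    rw [Finset.mem_filter] at hS ⊢
    exact ⟨Finset.mem_univ _, (near_map φ S).2 hS.2⟩
  · intro S _ S' _ h
    exact Finset.map_injective _ h
  · intro S hS
    rw [Finset.mem_filter] at hS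
    refine ⟨S.map φ.symm.toEquiv.toEmbedding, ?_, ?_⟩
    · rw [Finset.mem_filter]
      exact ⟨Finset.mem_univ _, (near_map φ.symm S).2 hS.2⟩
    · rw [Finset.map_map]
      convert Finset.map_refl
      ext x
      simp
  · intro S _
    rw [Finset.card_map]

end Iso

section Eval

/-- Number of coded edges inside the set with characteristic number `m`. -/
def cntm (m : ℕ) : List ℕ → ℕ
  | [] => 0
  | k :: l => (if m.testBit (l.length + 1) && m.testBit k then 1 else 0) + cntm m l

/-- Number of ones among the first binary digits. -/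
def pop (m : ℕ) : ℕ → ℕ
  | 0 => 0
  | k + 1 => (if m.testBit k then 1 else 0) + pop m k

/-- Evaluation of the number of nearly independent sets. -/
def sigL (l : List ℕ) : ℕ :=
  ((List.range (2 ^ (l.length + 1))).map (fun m => if cntm m l == 1 then 1 else 0)).sum

/-- Evaluation of the sum of their sizes. -/
def totL (l : List ℕ) : ℕ :=
  ((List.range (2 ^ (l.length + 1))).map
    (fun m => if cntm m l == 1 then pop m (l.length + 1) else 0)).sum

/-- Parents come before children. -/
def valid : List ℕ → Bool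
  | [] => true
  | k :: l => decide (k ≤ l.length) && valid l

theorem parOf_lt : ∀ (l : List ℕ), valid l = true → ∀ i, 1 ≤ i → i ≤ l.length → parOf l i < i
  | [], _, i, h1, h2 => by simp at h2; omega
  | k :: l, hv, i, h1, h2 => by
    simp only [valid, Bool.and_eq_true, decide_eq_true_eq] at hv
    by_cases hi : i = l.length + 1
    · subst hi
      rw [parOf_cons_last]
      omega
    · rw [List.length_cons] at h2
      have h3 : i ≤ l.length := by omega
      rw [parOf_cons_of_le k l i h3]
      exact parOf_lt l hv.2 i h1 h3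

/-- The set with characteristic number `m`. -/
def setOf' (N m : ℕ) : Finset (Fin N) := univ.filter fun i => m.testBit i.val = true

theorem mem_setOf' {N m : ℕ} {i : Fin N} : i ∈ setOf' N m ↔ m.testBit i.val = true := by
  simp [setOf']

theorem count_eq (m : ℕ) : ∀ l : List ℕ,
    (univ.filter fun i : Fin (l.length + 1) => i.val ≠ 0 ∧ m.testBit i.val = true ∧
      m.testBit (parOf l i.val) = true).card = cntm m l
  | [] => by
    simp only [cntm]
    rw [Finset.card_eq_zero, Finset.filter_eq_empty_iff]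
    intro i _
    simp
  | k :: l => by
    have ih := count_eq m l
    rw [Finset.card_filter] at ih ⊢
    rw [List.length_cons, Fin.sum_univ_castSucc]
    simp only [cntm]
    rw [add_comm, ← ih]
    congr 1
    · simp only [Fin.val_last, ne_eq, Nat.add_eq_zero_iff, one_ne_zero, and_false,
        not_false_eq_true, true_and, parOf_cons_last, Bool.and_eq_true]
    · apply Finset.sum_congr rfl
      intro i _
      rw [Fin.val_castSucc, parOf_cons_of_le k l i.val (Nat.lt_succ_iff.1 i.isLt)]

theorem near_GA (l : List ℕ) (hv : valid l = true) (m : ℕ) :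
    Near (GA l) (setOf' (l.length + 1) m) ↔ cntm m l = 1 := by
  rw [← count_eq, Finset.card_eq_one, near_iff]
  constructor
  · rintro ⟨u, v, hu, hv', huv, h⟩
    rw [mem_setOf'] at hu hv'
    -- the child end
    have key : ∀ a b : Fin (l.length + 1), m.testBit a.val = true → m.testBit b.val = true →
        (b.val < a.val ∧ parOf l a.val = b.val) →
        (∀ x ∈ setOf' (l.length + 1) m, ∀ y ∈ setOf' (l.length + 1) m, (GA l).Adj x y →
          s(x, y) = s(a, b)) →
        ∃ c, (univ.filter fun i : Fin (l.length + 1) => i.val ≠ 0 ∧ m.testBit i.val = true ∧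
          m.testBit (parOf l i.val) = true) = {c} := by
      intro a b ha hb hab hall
      refine ⟨a, ?_⟩
      ext i
      rw [Finset.mem_filter, Finset.mem_singleton]
      constructor
      · rintro ⟨-, hi0, hi, hpi⟩
        have hlt := parOf_lt l hv i.val (by omega) (Nat.lt_succ_iff.1 i.isLt)
        have hadj : (GA l).Adj i ⟨parOf l i.val, by have := i.isLt; omega⟩ := by
          rw [GA_adj]
          simp [adjN, hlt]
        have h1 := hall i (mem_setOf'.2 hi) _ (mem_setOf'.2 hpi) hadj
        rcases Sym2.eq_iff.1 h1 with ⟨h2, -⟩ | ⟨h2, h3⟩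
        · exact h2
        · exfalso
          have h4 := congrArg Fin.val h2
          have h5 := congrArg Fin.val h3
          simp only at h5
          omega
      · rintro rfl
        refine ⟨Finset.mem_univ _, by omega, ha, ?_⟩
        rw [hab.2]
        exact hb
    rw [GA_adj] at huv
    simp only [adjN, Bool.or_eq_true, Bool.and_eq_true, decide_eq_true_eq, beq_iff_eq] at huv
    rcases huv with huv | huv
    · exact key u v hu hv' huv h
    · refine key v u hv' hu huv ?_
      intro x hx y hy hxy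
      rw [Sym2.eq_swap (a := v) (b := u)]
      exact h x hx y hy hxy
  · rintro ⟨c, hc⟩
    have hcm : c ∈ (univ.filter fun i : Fin (l.length + 1) => i.val ≠ 0 ∧
        m.testBit i.val = true ∧ m.testBit (parOf l i.val) = true) := by
      rw [hc]; exact Finset.mem_singleton_self _
    rw [Finset.mem_filter] at hcm
    obtain ⟨-, hc0, hc1, hc2⟩ := hcm
    have hlt := parOf_lt l hv c.val (by omega) (Nat.lt_succ_iff.1 c.isLt)
    have key : ∀ a b : Fin (l.length + 1), m.testBit a.val = true → m.testBit b.val = true →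
        (b.val < a.val ∧ parOf l a.val = b.val) →
        a = c ∧ b.val = parOf l c.val := by
      intro a b ha hb hab
      have : a ∈ (univ.filter fun i : Fin (l.length + 1) => i.val ≠ 0 ∧
          m.testBit i.val = true ∧ m.testBit (parOf l i.val) = true) := by
        rw [Finset.mem_filter]
        refine ⟨Finset.mem_univ _, by omega, ha, ?_⟩
        rw [hab.2]; exact hb
      rw [hc, Finset.mem_singleton] at this
      subst this
      exact ⟨rfl, hab.2.symm⟩
    refine ⟨c, ⟨parOf l c.val, by have := c.isLt; omega⟩, mem_setOf'.2 hc1, mem_setOf'.2 hc2,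
      ?_, ?_⟩
    · rw [GA_adj]
      simp [adjN, hlt]
    · intro x hx y hy hxy
      rw [mem_setOf'] at hx hy
      rw [GA_adj] at hxy
      simp only [adjN, Bool.or_eq_true, Bool.and_eq_true, decide_eq_true_eq, beq_iff_eq] at hxy
      rcases hxy with hxy | hxy
      · obtain ⟨h1, h2⟩ := key x y hx hy hxy
        rw [Sym2.eq_iff]
        left
        exact ⟨h1, Fin.ext h2⟩
      · obtain ⟨h1, h2⟩ := key y x hy hx hxy
        rw [Sym2.eq_iff]
        right
        exact ⟨Fin.ext h2, h1⟩

theorem card_setOf' (m : ℕ) : ∀ N : ℕ, (setOf' N m).card = pop m N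
  | 0 => by simp [setOf', pop]
  | N + 1 => by
    have ih := card_setOf' m N
    unfold setOf' at ih ⊢
    rw [Finset.card_filter] at ih ⊢
    rw [Fin.sum_univ_castSucc]
    simp only [pop]
    rw [add_comm, ← ih]
    congr 1

theorem bij_setOf' (N : ℕ) :
    Function.Bijective (fun m : Fin (2 ^ N) => setOf' N m.val) := by
  rw [Fintype.bijective_iff_injective_and_card]
  constructor
  · intro a b hab
    apply Fin.ext
    apply Nat.eq_of_testBit_eq
    intro i
    by_cases hi : i < N
    · have h1 : (⟨i, hi⟩ : Fin N) ∈ setOf' N a.val ↔ (⟨i, hi⟩ : Fin N) ∈ setOf' N b.val := by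
        have : setOf' N a.val = setOf' N b.val := hab
        rw [this]
      rw [mem_setOf', mem_setOf'] at h1
      simp only at h1
      exact Bool.eq_iff_iff.2 h1
    · have h2 : 2 ^ N ≤ 2 ^ i := Nat.pow_le_pow_right (by norm_num) (by omega)
      rw [Nat.testBit_lt_two_pow (lt_of_lt_of_le a.isLt h2),
        Nat.testBit_lt_two_pow (lt_of_lt_of_le b.isLt h2)]
  · simp

theorem sum_sets (N : ℕ) (f : Finset (Fin N) → ℕ) :
    ∑ S : Finset (Fin N), f S = ((List.range (2 ^ N)).map (fun m => f (setOf' N m))).sum := by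
  rw [← (bij_setOf' N).sum_comp f, Fin.sum_univ_eq_sum_range (fun m => f (setOf' N m)),
    ← List.sum_toFinset _ List.nodup_range, List.toFinset_range]

open Classical in
theorem sigma1_GA (l : List ℕ) (hv : valid l = true) : sigma1 (GA l) = sigL l := by
  unfold sigma1 sigL
  rw [Finset.card_filter, sum_sets]
  congr 1
  apply List.map_congr_left
  intro m _
  simp only [near_GA l hv, beq_iff_eq]

open Classical in
theorem total1_GA (l : List ℕ) (hv : valid l = true) : total1 (GA l) = totL l := by
  unfold total1 totL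
  rw [Finset.sum_filter, sum_sets]
  congr 1
  apply List.map_congr_left
  intro m _
  simp only [near_GA l hv, beq_iff_eq, card_setOf']

end Eval

section Struct

variable {V : Type} [Fintype V]

open Classical in
/-- If some edge is not covered by the bound, the tree is `R_n`. -/
theorem iso_R (T : SimpleGraph V) (hT : T.IsTree) (n : ℕ) (hn : 4 ≤ n)
    (hcard : Fintype.card V = n) (u v : V) (huv : T.Adj u v)
    (hm : ¬ ((far T u v).card + 4 ≤ n ∨ ((far T u v).card + 3 ≤ n ∧
      ∃ x ∈ far T u v, ∃ y ∈ far T u v, T.Adj x y))) : Nonempty (T ≃g R n) := by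
  -- the set of other neighbours
  set W : Finset V := univ.filter fun x => x ≠ u ∧ x ≠ v ∧ (T.Adj u x ∨ T.Adj v x) with hW
  have hpart : ({u, v} : Finset V).card + W.card + (far T u v).card = n := by
    rw [← hcard, ← Finset.card_univ, ← Finset.card_union_of_disjoint,
      ← Finset.card_union_of_disjoint]
    · congr 1
      ext x
      simp only [hW, far, Finset.mem_union, Finset.mem_insert, Finset.mem_singleton,
        Finset.mem_filter, Finset.mem_univ, true_and, iff_true]
      tauto
    · rw [Finset.disjoint_left]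
      intro x hx
      simp only [hW, far, Finset.mem_union, Finset.mem_insert, Finset.mem_singleton,
        Finset.mem_filter, Finset.mem_univ, true_and] at hx ⊢
      tauto
    · rw [Finset.disjoint_left]
      intro x hx
      simp only [hW, Finset.mem_insert, Finset.mem_singleton,
        Finset.mem_filter, Finset.mem_univ, true_and] at hx ⊢
      tauto
  rw [Finset.card_pair huv.ne] at hpart
  -- every vertex has a neighbour
  haveI : Nontrivial V := Fintype.one_lt_card_iff_nontrivial.1 (by omega)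
  have hWne : 0 < W.card := by
    by_contra h0
    have hW0 : W = ∅ := Finset.card_eq_zero.1 (by omega)
    -- a third vertex
    have h3 : ∃ z, z ≠ u ∧ z ≠ v := by
      by_contra hcon
      push Not at hcon
      have : (univ : Finset V) ⊆ {u, v} := by
        intro z _
        rw [Finset.mem_insert, Finset.mem_singleton]
        by_cases hz : z = u
        · exact Or.inl hz
        · exact Or.inr (hcon z hz)
      have := Finset.card_le_card this
      rw [Finset.card_univ, hcard, Finset.card_pair huv.ne] at this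
      omega
    obtain ⟨z, hzu, hzv⟩ := h3
    have hconst : ∀ a b : V, T.Adj a b → ((a = u ∨ a = v) ↔ (b = u ∨ b = v)) := by
      have hno : ∀ a b : V, T.Adj a b → (a = u ∨ a = v) → (b = u ∨ b = v) := by
        intro a b hab ha
        by_contra hb
        push Not at hb
        have : b ∈ W := by
          rw [hW, Finset.mem_filter]
          refine ⟨Finset.mem_univ _, hb.1, hb.2, ?_⟩
          rcases ha with rfl | rfl
          · exact Or.inl hab
          · exact Or.inr hab
        rw [hW0] at this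
        exact absurd this (Finset.notMem_empty _)
      intro a b hab
      exact ⟨hno a b hab, hno b a hab.symm⟩
    have hreach : T.Reachable u z := hT.connected.preconnected u z
    have key : ∀ a b : V, T.Reachable a b → ((a = u ∨ a = v) ↔ (b = u ∨ b = v)) := by
      rintro a b ⟨p⟩
      induction p with
      | nil => exact Iff.rfl
      | cons hadj p ih => exact (hconst _ _ hadj).trans ih
    have := (key u z hreach).1 (Or.inl rfl)
    rcases this with h | h
    · exact hzu h
    · exact hzv h
  push Not at hm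
  obtain ⟨hm1, hm2⟩ := hm
  have hfar3 : (far T u v).card + 3 ≤ n := by omega
  have hind := hm2 hfar3
  have hW1 : W.card = 1 := by omega
  obtain ⟨w, hw⟩ := Finset.card_eq_one.1 hW1
  have hwW : w ∈ W := by rw [hw]; exact Finset.mem_singleton_self _
  rw [hW, Finset.mem_filter] at hwW
  obtain ⟨-, hwu, hwv, hwadj⟩ := hwW
  have hWmem : ∀ x, x ≠ u → x ≠ v → (T.Adj u x ∨ T.Adj v x) → x = w := by
    intro x h1 h2 h3
    have : x ∈ W := by
      rw [hW, Finset.mem_filter]
      exact ⟨Finset.mem_univ _, h1, h2, h3⟩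
    rw [hw, Finset.mem_singleton] at this
    exact this
  -- no triangle
  have hntri : ¬ (T.Adj u w ∧ T.Adj v w) := by
    rintro ⟨h1, h2⟩
    have hfree := hT.isAcyclic.cliqueFree (le_refl 3)
    refine hfree {u, v, w} ?_
    rw [SimpleGraph.is3Clique_triple_iff]
    exact ⟨huv, h1, h2⟩
  -- far vertices are adjacent exactly to `w`
  have hfarw : ∀ x, x ∈ far T u v → T.Adj x w ∧ ∀ y, T.Adj x y → y = w := by
    intro x hx
    have hx' := hx
    unfold far at hx'
    rw [Finset.mem_filter] at hx'
    obtain ⟨-, hxu, hxv, hxu', hxv'⟩ := hx'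
    have hall : ∀ y, T.Adj x y → y = w := by
      intro y hxy
      by_contra hyw
      have hyu : y ≠ u := fun h => hxu' (h ▸ hxy).symm
      have hyv : y ≠ v := fun h => hxv' (h ▸ hxy).symm
      have hyfar : y ∈ far T u v := by
        unfold far
        rw [Finset.mem_filter]
        refine ⟨Finset.mem_univ _, hyu, hyv, ?_, ?_⟩
        · intro h; exact hyw (hWmem y hyu hyv (Or.inl h))
        · intro h; exact hyw (hWmem y hyu hyv (Or.inr h))
      exact hind x hx y hyfar hxy
    obtain ⟨y, hy⟩ := hT.connected.preconnected.exists_adj_of_nontrivial x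
    have hyw := hall y hy
    subst hyw
    exact ⟨hy, hall⟩
  -- main construction, for the case that `w` is adjacent to `v`
  have main : ∀ a b : V, T.Adj a b → (∀ x, x ∈ far T u v ↔ x ≠ a ∧ x ≠ b ∧ x ≠ w) →
      a ≠ w → b ≠ w → ¬ T.Adj a w → T.Adj b w →
      (∀ y, T.Adj a y → y = b) → (∀ y, T.Adj b y → y = a ∨ y = w) →
      Nonempty (T ≃g R n) := by
    intro a b hab hfar haw hbw hnaw hbw' ha hb
    obtain ⟨e0⟩ : Nonempty (V ≃ Fin n) := ⟨Fintype.equivFinOfCardEq hcard⟩
    let z0 : Fin n := ⟨0, by omega⟩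
    let z1 : Fin n := ⟨1, by omega⟩
    let zl : Fin n := ⟨n - 1, by omega⟩
    have h01 : z0 ≠ z1 := by intro h; simpa [z0, z1] using congrArg Fin.val h
    have h0l : z0 ≠ zl := by
      intro h
      have := congrArg Fin.val h
      simp only [z0, zl] at this
      omega
    have h1l : z1 ≠ zl := by
      intro h
      have := congrArg Fin.val h
      simp only [z1, zl] at this
      omega
    let e1 : V ≃ Fin n := e0.trans (Equiv.swap (e0 w) z0)
    have e1w : e1 w = z0 := by simp [e1]
    let e2 : V ≃ Fin n := e1.trans (Equiv.swap (e1 b) z1)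
    have e2b : e2 b = z1 := by simp [e2]
    have e2w : e2 w = z0 := by
      simp only [e2, Equiv.trans_apply]
      rw [e1w]
      apply Equiv.swap_apply_of_ne_of_ne _ h01
      intro h
      rw [← e1w] at h
      exact hbw (e1.injective h).symm
    let e3 : V ≃ Fin n := e2.trans (Equiv.swap (e2 a) zl)
    have e3a : e3 a = zl := by simp [e3]
    have e3b : e3 b = z1 := by
      simp only [e3, Equiv.trans_apply]
      rw [e2b]
      apply Equiv.swap_apply_of_ne_of_ne _ h1l
      intro h
      rw [← e2b] at h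
      exact hab.ne (e2.injective h).symm
    have e3w : e3 w = z0 := by
      simp only [e3, Equiv.trans_apply]
      rw [e2w]
      apply Equiv.swap_apply_of_ne_of_ne _ h0l
      intro h
      rw [← e2w] at h
      exact haw (e2.injective h).symm
    have c0 : ∀ x, (e3 x).val = 0 ↔ x = w := by
      intro x
      constructor
      · intro h
        apply e3.injective
        rw [e3w]
        exact Fin.ext h
      · rintro rfl
        rw [e3w]
    have c1 : ∀ x, (e3 x).val = 1 ↔ x = b := by
      intro x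
      constructor
      · intro h
        apply e3.injective
        rw [e3b]
        exact Fin.ext h
      · rintro rfl
        rw [e3b]
    have cl : ∀ x, (e3 x).val = n - 1 ↔ x = a := by
      intro x
      constructor
      · intro h
        apply e3.injective
        rw [e3a]
        exact Fin.ext h
      · rintro rfl
        rw [e3a]
    refine ⟨⟨e3, ?_⟩⟩
    intro x y
    change ((e3 x).val = 0 ∧ (e3 y).val ≠ 0 ∧ (e3 y).val ≠ n - 1) ∨
      ((e3 y).val = 0 ∧ (e3 x).val ≠ 0 ∧ (e3 x).val ≠ n - 1) ∨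
      ((e3 x).val = 1 ∧ (e3 y).val = n - 1 ∧ e3 x ≠ e3 y) ∨
      ((e3 y).val = 1 ∧ (e3 x).val = n - 1 ∧ e3 x ≠ e3 y) ↔ T.Adj x y
    simp only [ne_eq, c0, c1, cl, e3.injective.eq_iff]
    have hw_adj : ∀ y, y ≠ w → y ≠ a → T.Adj w y := by
      intro y hyw hya
      by_cases hyb : y = b
      · rw [hyb]; exact hbw'.symm
      · exact (hfarw y ((hfar y).2 ⟨hya, hyb, hyw⟩)).1.symm
    constructor
    · rintro (⟨h1, h2, h3⟩ | ⟨h1, h2, h3⟩ | ⟨h1, h2, -⟩ | ⟨h1, h2, -⟩)
      · rw [h1]; exact hw_adj y h2 h3
      · rw [h1]; exact (hw_adj x h2 h3).symm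
      · rw [h1, h2]; exact hab.symm
      · rw [h1, h2]; exact hab
    · intro hxy
      by_cases hxw : x = w
      · left
        refine ⟨hxw, ?_, ?_⟩
        · intro h; exact hxy.ne (hxw.trans h.symm)
        · intro h
          rw [hxw, h] at hxy
          exact hnaw hxy.symm
      · by_cases hyw : y = w
        · right; left
          refine ⟨hyw, hxw, ?_⟩
          intro h
          rw [hyw, h] at hxy
          exact hnaw hxy
        · right; right
          by_cases hxa : x = a
          · right
            rw [hxa] at hxy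
            exact ⟨ha y hxy, hxa, by rw [hxa]; exact hxy.ne⟩
          · left
            by_cases hxb : x = b
            · rw [hxb] at hxy
              rcases hb y hxy with h | h
              · exact ⟨hxb, h, by rw [hxb]; exact hxy.ne⟩
              · exact absurd h hyw
            · exact absurd ((hfarw x ((hfar x).2 ⟨hxa, hxb, hxw⟩)).2 y hxy) hyw
  have hfar : ∀ x, x ∈ far T u v ↔ x ≠ u ∧ x ≠ v ∧ x ≠ w := by
    intro x
    unfold far
    rw [Finset.mem_filter]
    constructor
    · rintro ⟨-, h1, h2, h3, h4⟩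
      refine ⟨h1, h2, ?_⟩
      rintro rfl
      rcases hwadj with h | h
      · exact h3 h
      · exact h4 h
    · rintro ⟨h1, h2, h3⟩
      refine ⟨Finset.mem_univ _, h1, h2, ?_, ?_⟩
      · intro h; exact h3 (hWmem x h1 h2 (Or.inl h))
      · intro h; exact h3 (hWmem x h1 h2 (Or.inr h))
  by_cases hvw : T.Adj v w
  · have huw : ¬ T.Adj u w := fun h => hntri ⟨h, hvw⟩
    refine main u v huv hfar hwu.symm hwv.symm huw hvw ?_ ?_
    · intro y hy
      by_contra hyv
      have := hWmem y hy.ne' hyv (Or.inl hy)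
      rw [this] at hy
      exact huw hy
    · intro y hy
      by_cases hyu : y = u
      · exact Or.inl hyu
      · exact Or.inr (hWmem y hyu hy.ne' (Or.inr hy))
  · have huw : T.Adj u w := hwadj.resolve_right hvw
    refine main v u huv.symm (fun x => by rw [hfar x]; tauto) hwv.symm hwu.symm hvw huw ?_ ?_
    · intro y hy
      by_contra hyu
      have := hWmem y hyu hy.ne' (Or.inr hy)
      rw [this] at hy
      exact hvw hy
    · intro y hy
      by_cases hyv : y = v
      · exact Or.inl hyv
      · exact Or.inr (hWmem y hy.ne' hyv (Or.inl hy))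

end Struct

section RBound

/-- The centre. -/
def z0 {n : ℕ} (hn : 4 ≤ n) : Fin n := ⟨0, by omega⟩

/-- The vertex of degree two. -/
def z1 {n : ℕ} (hn : 4 ≤ n) : Fin n := ⟨1, by omega⟩

/-- The far leaf. -/
def zl {n : ℕ} (hn : 4 ≤ n) : Fin n := ⟨n - 1, by omega⟩

theorem R_adj_z0 {n : ℕ} (hn : 4 ≤ n) (j : Fin n) (h0 : j.val ≠ 0) (hl : j.val ≠ n - 1) :
    (R n).Adj (z0 hn) j := Or.inl ⟨rfl, h0, hl⟩

theorem R_adj_z1 {n : ℕ} (hn : 4 ≤ n) : (R n).Adj (z1 hn) (zl hn) := by
  right; right; left
  refine ⟨rfl, rfl, ?_⟩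
  intro h
  have := congrArg Fin.val h
  simp only [z1, zl] at this
  omega

theorem R_adj_cases {n : ℕ} (hn : 4 ≤ n) {x y : Fin n} (h : (R n).Adj x y) :
    (x = z0 hn ∧ y.val ≠ 0 ∧ y.val ≠ n - 1) ∨ (y = z0 hn ∧ x.val ≠ 0 ∧ x.val ≠ n - 1) ∨
      s(x, y) = s(z1 hn, zl hn) := by
  rcases h with h | h | h | h
  · exact Or.inl ⟨Fin.ext h.1, h.2⟩
  · exact Or.inr (Or.inl ⟨Fin.ext h.1, h.2⟩)
  · right; right
    rw [show x = z1 hn from Fin.ext h.1, show y = zl hn from Fin.ext h.2.1]
  · right; right
    rw [show y = z1 hn from Fin.ext h.1, show x = zl hn from Fin.ext h.2.1, Sym2.eq_swap]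

open Classical in
theorem sum_powerset {α : Type} (M : Finset α) :
    2 * ∑ A ∈ M.powerset, (A.card : ℤ) = (M.card : ℤ) * 2 ^ M.card := by
  have h1 : ∑ A ∈ M.powerset, (A.card : ℤ) = ∑ A ∈ M.powerset, ((M \ A).card : ℤ) := by
    refine Finset.sum_nbij' (fun A => M \ A) (fun A => M \ A) ?_ ?_ ?_ ?_ ?_
    · intro A _
      exact Finset.mem_powerset.2 Finset.sdiff_subset
    · intro A _
      exact Finset.mem_powerset.2 Finset.sdiff_subset
    · intro A hA
      exact Finset.sdiff_sdiff_eq_self (Finset.mem_powerset.1 hA)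
    · intro A hA
      exact Finset.sdiff_sdiff_eq_self (Finset.mem_powerset.1 hA)
    · intro A hA
      rw [Finset.sdiff_sdiff_eq_self (Finset.mem_powerset.1 hA)]
  have h2 : 2 * ∑ A ∈ M.powerset, (A.card : ℤ) =
      ∑ A ∈ M.powerset, ((A.card : ℤ) + ((M \ A).card : ℤ)) := by
    rw [Finset.sum_add_distrib, ← h1]
    ring
  rw [h2]
  have h3 : ∀ A ∈ M.powerset, ((A.card : ℤ) + ((M \ A).card : ℤ)) = M.card := by
    intro A hA
    have := Finset.card_sdiff_add_card_eq_card (Finset.mem_powerset.1 hA)
    omega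
  rw [Finset.sum_congr rfl h3, Finset.sum_const, Finset.card_powerset, nsmul_eq_mul]
  push_cast
  ring

open Classical in
theorem R_bound (n : ℕ) (hn10 : 10 ≤ n) :
    (3 * n + 1) * sigma1 (R n) ≤ 6 * total1 (R n) := by
  have hn : 4 ≤ n := by omega
  have h01 : z0 hn ≠ z1 hn := by
    intro h
    simpa [z0, z1] using congrArg Fin.val h
  have h0l : z0 hn ≠ zl hn := by
    intro h
    have := congrArg Fin.val h
    simp only [z0, zl] at this
    omega
  have h1l : z1 hn ≠ zl hn := by
    intro h
    have := congrArg Fin.val h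
    simp only [z1, zl] at this
    omega
  have hv0 : ∀ x : Fin n, x.val = 0 ↔ x = z0 hn :=
    fun x => ⟨fun h => Fin.ext h, fun h => by rw [h]; rfl⟩
  have hv1 : ∀ x : Fin n, x.val = 1 ↔ x = z1 hn :=
    fun x => ⟨fun h => Fin.ext h, fun h => by rw [h]; rfl⟩
  have hvl : ∀ x : Fin n, x.val = n - 1 ↔ x = zl hn :=
    fun x => ⟨fun h => Fin.ext h, fun h => by rw [h]; rfl⟩
  set M : Finset (Fin n) := ((univ.erase (z0 hn)).erase (z1 hn)).erase (zl hn) with hM
  have hMcard : M.card = n - 3 := by
    rw [hM, Finset.card_erase_of_mem, Finset.card_erase_of_mem, Finset.card_erase_of_mem,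
      Finset.card_univ, Fintype.card_fin]
    · omega
    · exact Finset.mem_univ _
    · exact Finset.mem_erase.2 ⟨h01.symm, Finset.mem_univ _⟩
    · exact Finset.mem_erase.2 ⟨h1l.symm, Finset.mem_erase.2 ⟨h0l.symm, Finset.mem_univ _⟩⟩
  set J : Finset (Fin n) := (univ.erase (z0 hn)).erase (zl hn) with hJ
  have hJcard : J.card = n - 2 := by
    rw [hJ, Finset.card_erase_of_mem, Finset.card_erase_of_mem,
      Finset.card_univ, Fintype.card_fin]
    · omega
    · exact Finset.mem_univ _
    · exact Finset.mem_erase.2 ⟨h0l.symm, Finset.mem_univ _⟩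
  have hMmem : ∀ x, x ∈ M ↔ x ≠ zl hn ∧ x ≠ z1 hn ∧ x ≠ z0 hn := by
    intro x
    simp [hM]
  have hJmem : ∀ x, x ∈ J ↔ x ≠ zl hn ∧ x ≠ z0 hn := by
    intro x
    simp [hJ]
  set φ : Finset (Fin n) → ℤ := fun S => 6 * (S.card : ℤ) - (3 * n + 1) with hφ
  -- the whole sum
  have htot : 6 * (total1 (R n) : ℤ) - (3 * n + 1) * (sigma1 (R n) : ℤ) =
      ∑ S ∈ univ.filter (fun S : Finset (Fin n) => Near (R n) S), φ S := by
    unfold total1 sigma1
    rw [hφ, Finset.sum_sub_distrib, ← Finset.mul_sum, Finset.sum_const, nsmul_eq_mul]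
    push_cast
    ring
  have hsplit := Finset.sum_filter_add_sum_filter_not
    (univ.filter (fun S : Finset (Fin n) => Near (R n) S)) (fun S => z0 hn ∉ S) φ
  -- first part
  let g : Finset (Fin n) → Finset (Fin n) := fun A => insert (z1 hn) (insert (zl hn) A)
  have hA : (univ.filter (fun S : Finset (Fin n) => Near (R n) S)).filter
      (fun S => z0 hn ∉ S) = M.powerset.image g := by
    ext S
    rw [Finset.mem_filter, Finset.mem_filter, Finset.mem_image]
    constructor
    · rintro ⟨⟨-, hS⟩, h0⟩
      rw [near_iff] at hS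
      obtain ⟨u, v, hu, hv, huv, -⟩ := hS
      have hz : z1 hn ∈ S ∧ zl hn ∈ S := by
        rcases R_adj_cases hn huv with h | h | h
        · rw [h.1] at hu; exact absurd hu h0
        · rw [h.1] at hv; exact absurd hv h0
        · rcases Sym2.eq_iff.1 h with ⟨h1, h2⟩ | ⟨h1, h2⟩
          · rw [← h1, ← h2]; exact ⟨hu, hv⟩
          · rw [← h1, ← h2]; exact ⟨hv, hu⟩
      refine ⟨(S.erase (z1 hn)).erase (zl hn), ?_, ?_⟩
      · rw [Finset.mem_powerset]
        intro x hx
        rw [Finset.mem_erase, Finset.mem_erase] at hx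
        rw [hMmem]
        refine ⟨hx.1, hx.2.1, ?_⟩
        intro h
        rw [h] at hx
        exact h0 hx.2.2
      · simp only [g]
        rw [Finset.insert_erase, Finset.insert_erase hz.1]
        exact Finset.mem_erase.2 ⟨h1l.symm, hz.2⟩
    · rintro ⟨A, hAM, rfl⟩
      rw [Finset.mem_powerset] at hAM
      have h0 : z0 hn ∉ g A := by
        simp only [g, Finset.mem_insert, not_or]
        exact ⟨h01, h0l, fun h => ((hMmem _).1 (hAM h)).2.2 rfl⟩
      refine ⟨⟨Finset.mem_univ _, ?_⟩, h0⟩
      rw [near_iff]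
      refine ⟨z1 hn, zl hn, by simp [g], by simp [g], R_adj_z1 hn, ?_⟩
      intro x hx y hy hxy
      rcases R_adj_cases hn hxy with h | h | h
      · rw [h.1] at hx; exact absurd hx h0
      · rw [h.1] at hy; exact absurd hy h0
      · exact h
  have hgcard : ∀ A ∈ M.powerset, ((g A).card : ℤ) = A.card + 2 := by
    intro A hAM
    rw [Finset.mem_powerset] at hAM
    simp only [g]
    rw [Finset.card_insert_of_notMem, Finset.card_insert_of_notMem]
    · push_cast; ring
    · intro h; exact ((hMmem _).1 (hAM h)).1 rfl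
    · rw [Finset.mem_insert, not_or]
      exact ⟨h1l, fun h => ((hMmem _).1 (hAM h)).2.1 rfl⟩
  have hginj : Set.InjOn g (M.powerset : Finset (Finset (Fin n))) := by
    intro A hA B hB hAB
    rw [Finset.mem_coe, Finset.mem_powerset] at hA hB
    ext x
    by_cases hx1 : x = z1 hn
    · constructor
      · intro h; exact absurd hx1 ((hMmem _).1 (hA h)).2.1
      · intro h; exact absurd hx1 ((hMmem _).1 (hB h)).2.1
    · by_cases hxl : x = zl hn
      · constructor
        · intro h; exact absurd hxl ((hMmem _).1 (hA h)).1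
        · intro h; exact absurd hxl ((hMmem _).1 (hB h)).1
      · have h1 : x ∈ g A ↔ x ∈ g B := by rw [hAB]
        simpa [g, hx1, hxl] using h1
  have hsumA : ∑ S ∈ M.powerset.image g, φ S = 2 * 2 ^ (n - 3) := by
    rw [Finset.sum_image hginj]
    have h1 : ∀ A ∈ M.powerset, φ (g A) = 6 * (A.card : ℤ) + (11 - 3 * n) := by
      intro A hA
      simp only [hφ]
      rw [hgcard A hA]
      ring
    rw [Finset.sum_congr rfl h1, Finset.sum_add_distrib, ← Finset.mul_sum, Finset.sum_const,
      Finset.card_powerset, nsmul_eq_mul]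
    have h2 := sum_powerset M
    rw [hMcard] at h2 ⊢
    have h3 : ((n - 3 : ℕ) : ℤ) = (n : ℤ) - 3 := by
      rw [Nat.cast_sub (by omega)]; rfl
    rw [h3] at h2
    push_cast
    linear_combination (3 : ℤ) * h2
  -- second part
  set B := (univ.filter (fun S : Finset (Fin n) => Near (R n) S)).filter
      (fun S => ¬ z0 hn ∉ S) with hB
  have hBstr : ∀ S ∈ B, ∃ j ∈ J, S = {z0 hn, j} ∨ S = {z0 hn, j, zl hn} := by
    intro S hS
    rw [hB, Finset.mem_filter, Finset.mem_filter, not_not] at hS
    obtain ⟨⟨-, hS⟩, h0⟩ := hS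
    rw [near_iff] at hS
    obtain ⟨u, v, hu, hv, huv, hall⟩ := hS
    -- a neighbour of the centre in `S`
    have hj : ∃ j ∈ S, (R n).Adj (z0 hn) j := by
      rcases R_adj_cases hn huv with h | h | h
      · rw [h.1] at huv; exact ⟨v, hv, huv⟩
      · rw [h.1] at huv; exact ⟨u, hu, huv.symm⟩
      · refine ⟨z1 hn, ?_, R_adj_z0 hn _ (by simp [z1]) (by simp [z1]; omega)⟩
        rcases Sym2.eq_iff.1 h with ⟨h1, h2⟩ | ⟨h1, h2⟩
        · rw [← h1]; exact hu
        · rw [← h2]; exact hv
    obtain ⟨j, hjS, hj⟩ := hj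
    have hjJ : j ∈ J := by
      rw [hJmem]
      refine ⟨?_, hj.ne'⟩
      intro h
      rw [h] at hj
      rcases R_adj_cases hn hj with h | h | h
      · exact h.2.2 rfl
      · exact h0l h.1.symm
      · rcases Sym2.eq_iff.1 h with ⟨h1, -⟩ | ⟨h1, -⟩
        · exact h01 h1
        · exact h0l h1
    have hx : ∀ x ∈ S, x = z0 hn ∨ x = j ∨ x = zl hn := by
      intro x hxS
      by_cases h1 : x = z0 hn
      · exact Or.inl h1
      · by_cases h2 : x = zl hn
        · exact Or.inr (Or.inr h2)
        · right; left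
          have hadj : (R n).Adj (z0 hn) x := R_adj_z0 hn x
            (fun h => h1 ((hv0 x).1 h)) (fun h => h2 ((hvl x).1 h))
          have e1 := hall _ h0 _ hjS hj
          have e2 := hall _ h0 _ hxS hadj
          exact (Sym2.congr_right.1 (e1.trans e2.symm)).symm
    refine ⟨j, hjJ, ?_⟩
    by_cases hl : zl hn ∈ S
    · right
      ext x
      simp only [Finset.mem_insert, Finset.mem_singleton]
      constructor
      · exact hx x
      · rintro (h | h | h) <;> rw [h] <;> assumption
    · left
      ext x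
      simp only [Finset.mem_insert, Finset.mem_singleton]
      constructor
      · intro hxS
        rcases hx x hxS with h | h | h
        · exact Or.inl h
        · exact Or.inr h
        · rw [h] at hxS; exact absurd hxS hl
      · rintro (h | h) <;> rw [h] <;> assumption
  have hc2 : ∀ j ∈ J, ({z0 hn, j} : Finset (Fin n)).card = 2 := by
    intro j hj
    exact Finset.card_pair ((hJmem j).1 hj).2.symm
  have hc3 : ∀ j ∈ J, ({z0 hn, j, zl hn} : Finset (Fin n)).card = 3 := by
    intro j hj
    exact Finset.card_eq_three.2 ⟨_, _, _, ((hJmem j).1 hj).2.symm, h0l, ((hJmem j).1 hj).1, rfl⟩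
  have hB2 : (B.filter fun S => S.card = 2).card ≤ n - 2 := by
    rw [← hJcard]
    refine (Finset.card_le_card ?_).trans
      (Finset.card_image_le (s := J) (f := fun j => ({z0 hn, j} : Finset (Fin n))))
    intro S hS
    rw [Finset.mem_filter] at hS
    obtain ⟨j, hj, h | h⟩ := hBstr S hS.1
    · exact Finset.mem_image.2 ⟨j, hj, h.symm⟩
    · have := hc3 j hj
      rw [← h, hS.2] at this
      exact absurd this (by norm_num)
  have hB3 : (B.filter fun S => ¬ S.card = 2).card ≤ n - 2 := by
    rw [← hJcard]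
    refine (Finset.card_le_card ?_).trans
      (Finset.card_image_le (s := J) (f := fun j => ({z0 hn, j, zl hn} : Finset (Fin n))))
    intro S hS
    rw [Finset.mem_filter] at hS
    obtain ⟨j, hj, h | h⟩ := hBstr S hS.1
    · exact absurd (by rw [h]; exact hc2 j hj) hS.2
    · exact Finset.mem_image.2 ⟨j, hj, h.symm⟩
  have hsumB : -(((n : ℤ) - 2) * (6 * n - 28)) ≤ ∑ S ∈ B, φ S := by
    rw [← Finset.sum_filter_add_sum_filter_not B (fun S => S.card = 2) φ]
    have e2 : ∑ S ∈ B.filter (fun S => S.card = 2), φ S =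
        ((B.filter fun S => S.card = 2).card : ℤ) * (11 - 3 * n) := by
      rw [Finset.sum_congr rfl (g := fun _ => (11 - 3 * (n : ℤ))), Finset.sum_const,
        nsmul_eq_mul]
      intro S hS
      rw [Finset.mem_filter] at hS
      simp only [hφ]
      rw [hS.2]
      push_cast
      ring
    have e3 : ∑ S ∈ B.filter (fun S => ¬ S.card = 2), φ S =
        ((B.filter fun S => ¬ S.card = 2).card : ℤ) * (17 - 3 * n) := by
      rw [Finset.sum_congr rfl (g := fun _ => (17 - 3 * (n : ℤ))), Finset.sum_const,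
        nsmul_eq_mul]
      intro S hS
      rw [Finset.mem_filter] at hS
      obtain ⟨j, hj, h | h⟩ := hBstr S hS.1
      · exact absurd (by rw [h]; exact hc2 j hj) hS.2
      · simp only [hφ]
        rw [h, hc3 j hj]
        push_cast
        ring
    rw [e2, e3]
    have f2 : ((B.filter fun S => S.card = 2).card : ℤ) ≤ (n : ℤ) - 2 := by
      have : ((n - 2 : ℕ) : ℤ) = (n : ℤ) - 2 := by rw [Nat.cast_sub (by omega)]; rfl
      rw [← this]
      exact_mod_cast hB2
    have f3 : ((B.filter fun S => ¬ S.card = 2).card : ℤ) ≤ (n : ℤ) - 2 := by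
      have : ((n - 2 : ℕ) : ℤ) = (n : ℤ) - 2 := by rw [Nat.cast_sub (by omega)]; rfl
      rw [← this]
      exact_mod_cast hB3
    have hn' : (10 : ℤ) ≤ n := by exact_mod_cast hn10
    nlinarith
  have hnum : ((n : ℤ) - 2) * (6 * n - 28) ≤ 2 * 2 ^ (n - 3) := by
    obtain ⟨k, rfl⟩ := Nat.exists_eq_add_of_le hn10
    have e : 10 + k - 3 = k + 7 := by omega
    rw [e]
    push_cast
    have key : ∀ k : ℕ, ((10 + (k : ℤ)) - 2) * (6 * (10 + (k : ℤ)) - 28) ≤ 2 * 2 ^ (k + 7) := by
      intro k
      induction k with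
      | zero => norm_num
      | succ k ih =>
        rw [show k + 1 + 7 = (k + 7) + 1 by ring, pow_succ]
        push_cast
        nlinarith
    exact key k
  rw [hA, hsumA] at hsplit
  have hfin : 0 ≤ 6 * (total1 (R n) : ℤ) - (3 * n + 1) * (sigma1 (R n) : ℤ) := by
    rw [htot, ← hsplit]
    linarith
  have : (3 * (n : ℤ) + 1) * (sigma1 (R n) : ℤ) ≤ 6 * (total1 (R n) : ℤ) := by linarith
  exact_mod_cast this

end RBound

theorem av1_le_of {V : Type} [Fintype V] (T : SimpleGraph V) (a b : ℕ) (hb : 0 < b)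
    (h : total1 T * b ≤ a * sigma1 T) : av1 T ≤ (a : ℚ) / b := by
  unfold av1
  rcases Nat.eq_zero_or_pos (sigma1 T) with h0 | h0
  · rw [h0]
    simp only [Nat.cast_zero, div_zero]
    positivity
  · rw [div_le_div_iff₀ (by exact_mod_cast h0) (by exact_mod_cast hb)]
    exact_mod_cast h

theorem le_av1_of {V : Type} [Fintype V] (T : SimpleGraph V) (a b : ℕ) (hb : 0 < b)
    (hs : 0 < sigma1 T)
    (h : a * sigma1 T ≤ total1 T * b) : (a : ℚ) / b ≤ av1 T := by
  unfold av1
  rw [div_le_div_iff₀ (by exact_mod_cast hb) (by exact_mod_cast hs)]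
  exact_mod_cast h

/-- Small cases by enumeration. -/
theorem small (k : ℕ) (L : List (List ℕ)) (hL : Covers k L) (lR : List ℕ)
    (φ : Nonempty (R (k + 1) ≃g GA lR)) (hvR : valid lR = true) (hpos : 0 < sigL lR)
    (hall : (L.all fun l => valid l && decide (totL l * sigL lR ≤ totL lR * sigL l)) = true)
    (V : Type) [Fintype V] (hV : Fintype.card V = k + 1) (T : SimpleGraph V) (hT : T.IsTree) :
    av1 T ≤ av1 (R (k + 1)) := by
  obtain ⟨l, hl, -, ⟨ψ⟩⟩ := hL V T hT hV
  obtain ⟨φ⟩ := φ
  rw [List.all_eq_true] at hall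
  have h1 := hall l hl
  rw [Bool.and_eq_true, decide_eq_true_eq] at h1
  have h2 : av1 (R (k + 1)) = (totL lR : ℚ) / (sigL lR : ℚ) := by
    unfold av1
    rw [total1_iso φ, sigma1_iso φ, total1_GA lR hvR, sigma1_GA lR hvR]
  rw [h2]
  apply av1_le_of T _ _ hpos
  rw [total1_iso ψ, sigma1_iso ψ, total1_GA l h1.1, sigma1_GA l h1.1]
  exact h1.2

/-- For every `n ≥ 4` and every tree `T` with `n` vertices, `av₁(T) ≤ av₁(R_n)`. -/
theorem result (n : ℕ) (hn : 4 ≤ n) (V : Type) [Fintype V] (hV : Fintype.card V = n)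
    (T : SimpleGraph V) (hT : T.IsTree) : av1 T ≤ av1 (R n) := by
  classical
  rcases Nat.lt_or_ge n 10 with h10 | h10
  · interval_cases n
    · exact small 3 L3 covers3 [1, 0, 0] ⟨⟨Equiv.refl _, by decide⟩⟩ (by decide)
        (by decide +kernel) (by decide +kernel) V hV T hT
    · exact small 4 L4 covers4 [1, 0, 0, 0] ⟨⟨Equiv.refl _, by decide⟩⟩ (by decide)
        (by decide +kernel) (by decide +kernel) V hV T hT
    · exact small 5 L5 covers5 [1, 0, 0, 0, 0] ⟨⟨Equiv.refl _, by decide⟩⟩ (by decide)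
        (by decide +kernel) (by decide +kernel) V hV T hT
    · exact small 6 L6 covers6 [1, 0, 0, 0, 0, 0] ⟨⟨Equiv.refl _, by decide⟩⟩ (by decide)
        (by decide +kernel) (by decide +kernel) V hV T hT
    · exact small 7 L7 covers7 [1, 0, 0, 0, 0, 0, 0] ⟨⟨Equiv.refl _, by decide⟩⟩ (by decide)
        (by decide +kernel) (by decide +kernel) V hV T hT
    · exact small 8 L8 covers8 [1, 0, 0, 0, 0, 0, 0, 0] ⟨⟨Equiv.refl _, by decide⟩⟩ (by decide)
        (by decide +kernel) (by decide +kernel) V hV T hT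
  · by_cases hm : ∀ u v, T.Adj u v → ((far T u v).card + 4 ≤ n ∨ ((far T u v).card + 3 ≤ n ∧
      ∃ x ∈ far T u v, ∃ y ∈ far T u v, T.Adj x y))
    · have h1 := bound_of_edges T n hm
      have h2 := R_bound n h10
      have hs : 0 < sigma1 (R n) := by
        unfold sigma1
        rw [Finset.card_pos]
        refine ⟨{z0 hn, z1 hn}, ?_⟩
        rw [Finset.mem_filter, near_iff]
        refine ⟨Finset.mem_univ _, z0 hn, z1 hn, by simp, by simp,
          R_adj_z0 hn _ (by simp [z1]) (by simp [z1]; omega), ?_⟩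
        intro x hx y hy hxy
        rw [Finset.mem_insert, Finset.mem_singleton] at hx hy
        rcases hx with rfl | rfl <;> rcases hy with rfl | rfl
        · exact absurd rfl hxy.ne
        · rfl
        · exact Sym2.eq_swap
        · exact absurd rfl hxy.ne
      have h3 : av1 T ≤ ((3 * n + 1 : ℕ) : ℚ) / ((6 : ℕ) : ℚ) :=
        av1_le_of T _ _ (by norm_num) (by linarith)
      have h4 : ((3 * n + 1 : ℕ) : ℚ) / ((6 : ℕ) : ℚ) ≤ av1 (R n) :=
        le_av1_of _ _ _ (by norm_num) hs (by linarith)
      exact h3.trans h4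
    · push Not at hm
      obtain ⟨u, v, huv, hm⟩ := hm
      obtain ⟨φ⟩ := iso_R T hT n hn hV u v huv (by push Not; exact hm)
      unfold av1
      rw [total1_iso φ, sigma1_iso φ]

end Pool.Agent.Results.MP_635878_co.Maximiser
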